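import Pool.Agent.Lib.MP_41a456_al.R.RT2

/-!
# The maximal condition for ideals of `K[SL_n(ℤ)]` with residually finite-dimensional quotient

Let `n ≥ 3` and let `K` be a field.
(1) Every ascending chain of two-sided ideals of `K[SL_n(ℤ)]`, each of which is an intersection of
two-sided ideals of finite codimension, is eventually constant.
(2) Let `I` be a two-sided ideal whose images under the two signs `-1 ↦ ±1` of the central matrix
`-1` are not zero (for odd `n`: let `I` be nonzero). Then there is a smallest two-sided ideal of finite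
codimension which contains `I`: the algebra `K[SL_n(ℤ)]/I` has a largest finite-dimensional quotient.
-/

namespace Pool.Agent.Results.MP_41a456_al.ResiduallyFinite

open Matrix Pool.Agent.Lib.MP_41a456_al Pool.Agent.Lib.MP_41a456_al.C
  Pool.Agent.Lib.MP_41a456_al.R

universe u

theorem result (n : ℕ) (hn : 3 ≤ n) (K : Type u) [Field K] :
    (∀ I : ℕ → TwoSidedIdeal (MonoidAlgebra K (Matrix.SpecialLinearGroup (Fin n) ℤ)),
      Monotone I →
      (∀ (j : ℕ) (x : MonoidAlgebra K (Matrix.SpecialLinearGroup (Fin n) ℤ)),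
        (∀ J : TwoSidedIdeal (MonoidAlgebra K (Matrix.SpecialLinearGroup (Fin n) ℤ)),
          I j ≤ J → Module.Finite K J.ringCon.Quotient → x ∈ J) →
        x ∈ I j) →
      ∃ m : ℕ, ∀ k : ℕ, m ≤ k → I k = I m) ∧
    ∀ I : TwoSidedIdeal (MonoidAlgebra K (Matrix.SpecialLinearGroup (Fin n) ℤ)),
      (∀ s : K, (s = 1 ∨ s = -1) → ∃ a ∈ I, ∃ g : Matrix.SpecialLinearGroup (Fin n) ℤ,
        a.coeff g ≠ 0 ∧ ∀ g' : Matrix.SpecialLinearGroup (Fin n) ℤ,
          (g' : Matrix (Fin n) (Fin n) ℤ) = -(g : Matrix (Fin n) (Fin n) ℤ) →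
            a.coeff g' ≠ s * a.coeff g) →
      ∃ J : TwoSidedIdeal (MonoidAlgebra K (Matrix.SpecialLinearGroup (Fin n) ℤ)),
        I ≤ J ∧ Module.Finite K J.ringCon.Quotient ∧
          ∀ J' : TwoSidedIdeal (MonoidAlgebra K (Matrix.SpecialLinearGroup (Fin n) ℤ)),
            I ≤ J' → Module.Finite K J'.ringCon.Quotient → J ≤ J' := by
  classical
  obtain ⟨k, rfl⟩ : ∃ k, n = k + 3 := ⟨n - 3, by omega⟩
  refine ⟨fun I hI hc => ?_, fun I hs => ?_⟩
  · exact chainF I hI fun j x hx => hc j x (mem_fcl.1 hx)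
  · obtain ⟨f, hf, h1, h2⟩ := both_signs I hs
    obtain ⟨T, hT⟩ := fcl_fin I f hf h1 h2
    refine ⟨fcl I, ?_, finite_of_T _ T hT, ?_⟩
    · intro x hx
      exact mem_fcl.2 fun J hIJ _ => hIJ hx
    · intro J' hIJ' hfin x hx
      exact mem_fcl.1 hx J' hIJ' hfin

end Pool.Agent.Results.MP_41a456_al.ResiduallyFinite
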