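import Pool.Agent.Lib.MP_41a456_al.Ideal

/-!
# Ideals of `K[SL_n(ℤ)]` which contain an element with at most `n (n - 1) / 2` terms

Let `n ≥ 3`, let `K` be a field and let `a` be an element of the group algebra `K[SL_n(ℤ)]` whose
image is nonzero for both signs `-1 ↦ ±1` of the central matrix `-1`. If `a` has at most
`n (n - 1) / 2` terms, or if its support is degenerate along a nested list of complementary pairs of
subspaces, then every two-sided ideal which contains `a` has finite codimension, and every ascending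
chain of two-sided ideals of which some member contains `a` is eventually constant.
-/

namespace Pool.Agent.Results.MP_41a456_al.ShortElement

open Matrix Pool.Agent.Lib.MP_41a456_al

universe u

theorem result (n : ℕ) (hn : 3 ≤ n) (K : Type u) [Field K]
    (a : MonoidAlgebra K (Matrix.SpecialLinearGroup (Fin n) ℤ))
    (hsign : ∀ s : K, (s = 1 ∨ s = -1) → ∃ g : Matrix.SpecialLinearGroup (Fin n) ℤ,
      a.coeff g ≠ 0 ∧ ∀ g' : Matrix.SpecialLinearGroup (Fin n) ℤ,
        (g' : Matrix (Fin n) (Fin n) ℤ) = -(g : Matrix (Fin n) (Fin n) ℤ) →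
          a.coeff g' ≠ s * a.coeff g)
    (hshort : 2 * a.coeff.support.card ≤ n * (n - 1) ∨
      ∃ L : List (Submodule ℚ (Fin n → ℚ) × Submodule ℚ (Fin n → ℚ)),
        (L.Pairwise fun p q => q.1 ≤ p.1 ∧ p.2 ≤ q.2) ∧
        (∀ p ∈ L, Module.finrank ℚ p.1 + Module.finrank ℚ p.2 = n) ∧
        ∀ g ∈ a.coeff.support, ∃ p ∈ L, ∃ w ∈ p.2, w ≠ 0 ∧
          ((g : Matrix (Fin n) (Fin n) ℤ).map fun x => (x : ℚ)) *ᵥ w ∈ p.1) :
    (∀ I : TwoSidedIdeal (MonoidAlgebra K (Matrix.SpecialLinearGroup (Fin n) ℤ)), a ∈ I →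
      ∃ T : Finset (Matrix.SpecialLinearGroup (Fin n) ℤ),
        ∀ x : MonoidAlgebra K (Matrix.SpecialLinearGroup (Fin n) ℤ),
          ∃ t : MonoidAlgebra K (Matrix.SpecialLinearGroup (Fin n) ℤ),
            t.coeff.support ⊆ T ∧ x - t ∈ I) ∧
    ∀ I : ℕ → TwoSidedIdeal (MonoidAlgebra K (Matrix.SpecialLinearGroup (Fin n) ℤ)),
      Monotone I → (∃ j, a ∈ I j) → ∃ m : ℕ, ∀ k : ℕ, m ≤ k → I k = I m := by
  classical
  obtain ⟨k, rfl⟩ : ∃ k, n = k + 3 := ⟨n - 3, by omega⟩
  -- the list of nested pairs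
  obtain ⟨L, hL, hc, hdeg⟩ : ∃ L : List (Submodule ℚ (Fin (k + 3) → ℚ) ×
      Submodule ℚ (Fin (k + 3) → ℚ)), (L.Pairwise fun p q => q.1 ≤ p.1 ∧ p.2 ≤ q.2) ∧
      (∀ p ∈ L, Comp p.1 p.2) ∧
      ∀ g : SLn (k + 3), a.coeff g ≠ 0 → ∃ p ∈ L, Deg p.1 p.2 (g : Mt (k + 3)) := by
    rcases hshort with h | ⟨L, h1, h2, h3⟩
    · obtain ⟨L, h1, h2, h3⟩ := few_top
        (a.coeff.support.image fun g : SLn (k + 3) => (g : Mt (k + 3)))
        (by
          intro X hX
          obtain ⟨g, _, rfl⟩ := Finset.mem_image.1 hX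
          exact ⟨g, Or.inl rfl⟩)
        (by
          have := Finset.card_image_le (s := a.coeff.support)
            (f := fun g : SLn (k + 3) => (g : Mt (k + 3)))
          omega)
      exact ⟨L, h1, h2, fun g hg => h3 _ (Finset.mem_image_of_mem _
        (Finsupp.mem_support_iff.2 hg))⟩
    · exact ⟨L, h1, h2, fun g hg => h3 g (Finsupp.mem_support_iff.2 hg)⟩
  have hdegneg : ∀ (p : Submodule ℚ (Fin (k + 3) → ℚ) × Submodule ℚ (Fin (k + 3) → ℚ))
      (X : Mt (k + 3)), Deg p.1 p.2 X → Deg p.1 p.2 (-X) := by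
    rintro p X ⟨w, hw, hne, hX⟩
    refine ⟨w, hw, hne, ?_⟩
    rw [qm_neg, neg_mulVec]
    exact p.1.neg_mem hX
  -- one sign
  have hone : ∀ I : TwoSidedIdeal (MonoidAlgebra K (SLn (k + 3))), a ∈ I →
      ∀ s : K, (s = 1 ∨ s = -1) → ∃ T : Finset (SLn (k + 3)), ∀ g : SLn (k + 3),
        Ph s g ∈ (IC I).map (PhS s) ⊔ Submodule.span K (Ph s '' (T : Set (SLn (k + 3)))) := by
    intro I ha s hs
    have hss : s * s = 1 := by rcases hs with rfl | rfl <;> norm_num
    have hJ := bi_ideal I hss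
    set b := PhS s a.coeff with hb
    have hbJ : b ∈ (IC I).map (PhS s) := ⟨a.coeff, ha, rfl⟩
    have hb0 : b ≠ 0 := by
      obtain ⟨g, hg, hg'⟩ := hsign (-s) (by
        rcases hs with rfl | rfl
        · exact Or.inr rfl
        · exact Or.inl (by rw [neg_neg]))
      intro h0
      by_cases hex : ∃ g' : SLn (k + 3), (g' : Mt (k + 3)) = -(g : Mt (k + 3))
      · obtain ⟨g', hgg'⟩ := hex
        have h1 := PhS_coe s a.coeff (by omega) hgg'
        rw [← hb, h0] at h1
        have h2 : (0 : K) = a.coeff g + s * a.coeff g' := h1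
        apply hg' g' hgg'
        linear_combination (-s) * h2 + (-(a.coeff g')) * hss
      · push Not at hex
        have h1 := PhS_coe' s a.coeff hex
        rw [← hb, h0] at h1
        exact hg h1.symm
    obtain ⟨p, hp, b1, hb1, hb10, hd1⟩ := flags hJ L hL hc b hbJ hb0 (by
      intro X hX
      obtain ⟨g, hg, rfl | rfl⟩ := PhS_unit s a.coeff X hX
      · exact hdeg g hg
      · obtain ⟨p, hp, hd⟩ := hdeg g hg
        exact ⟨p, hp, hdegneg p _ hd⟩)
    obtain ⟨b2, hb2, hb20, ε, hε, hrow⟩ := row hJ (hc p hp) hb1 hb10 hd1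
    obtain ⟨b3, hb3, hb30, hu⟩ := unip hJ hb2 hb20 hε hrow
    exact fin_all hJ (exists_JT hJ hb3 hb30 hu)
  have hfin : ∀ I : TwoSidedIdeal (MonoidAlgebra K (SLn (k + 3))), a ∈ I →
      ∃ T : Finset (SLn (k + 3)), IC I ⊔ Submodule.span K
        ((fun t : SLn (k + 3) => Finsupp.single t (1 : K)) '' (T : Set (SLn (k + 3)))) = ⊤ :=
    fun I ha => fin_codim (by omega) I (hone I ha)
  refine ⟨fun I ha => ?_, fun I hI ⟨j, hj⟩ => ?_⟩
  · obtain ⟨T, hT⟩ := hfin I ha
    refine ⟨T, fun x => ?_⟩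
    have h1 : x.coeff ∈ IC I ⊔ Submodule.span K
        ((fun t : SLn (k + 3) => Finsupp.single t (1 : K)) '' (T : Set (SLn (k + 3)))) := by
      rw [hT]
      trivial
    obtain ⟨y, hy, t, ht, hyt⟩ := Submodule.mem_sup.1 h1
    have ht' : t ∈ Finsupp.supported K K (T : Set (SLn (k + 3))) := by
      rw [Finsupp.supported_eq_span_single]
      exact ht
    refine ⟨MonoidAlgebra.ofCoeff t, ?_, ?_⟩
    · exact Finset.coe_subset.1 ((Finsupp.mem_supported K t).1 ht')
    · have h2 : x - MonoidAlgebra.ofCoeff t = MonoidAlgebra.ofCoeff y := by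
        ext g
        change x.coeff g - t g = y g
        rw [← hyt, Finsupp.add_apply]
        ring
      rw [h2]
      exact hy
  · obtain ⟨T, hT⟩ := hfin (I j) hj
    exact chain_stops I hI T j hT

end Pool.Agent.Results.MP_41a456_al.ShortElement
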